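import Pool.Agent.Helper17.FP.Stmts

set_option autoImplicit false

open Finset

namespace Pool.Agent.Helper17.FP

open Pool.Agent.Helper17.SO Pool.Agent.Helper17.SV

theorem st_REC (h1 : ST_CHEB) : ST_REC := by
  obtain ⟨C, hC, h⟩ := h1
  refine ⟨2 * C, by positivity, fun Q hQ => ?_⟩
  have hQ0 : (0 : ℝ) < Q := by exact_mod_cast (by omega : 0 < Q)
  have hlog : 0 < Real.log Q := Real.log_pos (by exact_mod_cast (by omega : 1 < Q))
  have hsub : PP Q (2 * Q) ⊆ PP 0 (2 * Q) := by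
    intro q hq
    unfold PP at hq ⊢
    simp only [mem_filter, mem_Ioc] at hq ⊢
    exact ⟨⟨by omega, hq.1.2⟩, hq.2⟩
  have hcard : ((PP Q (2 * Q)).card : ℝ) ≤ C * (2 * Q : ℕ) / Real.log (2 * Q : ℕ) :=
    le_trans (by exact_mod_cast card_le_card hsub) (h (2 * Q) (by omega))
  have hlog2 : Real.log Q ≤ Real.log (2 * Q : ℕ) :=
    Real.log_le_log hQ0 (by push_cast; linarith)
  calc ∑ q ∈ PP Q (2 * Q), 1 / (q : ℝ) ≤ ∑ _q ∈ PP Q (2 * Q), 1 / (Q : ℝ) := by
        refine sum_le_sum fun q hq => ?_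
        unfold PP at hq
        simp only [mem_filter, mem_Ioc] at hq
        exact one_div_le_one_div_of_le hQ0 (by exact_mod_cast hq.1.1.le)
    _ = ((PP Q (2 * Q)).card : ℝ) * (1 / (Q : ℝ)) := by rw [sum_const, nsmul_eq_mul]
    _ ≤ (C * (2 * Q : ℕ) / Real.log Q) * (1 / (Q : ℝ)) := by
        refine mul_le_mul_of_nonneg_right (hcard.trans ?_) (by positivity)
        exact div_le_div_of_nonneg_left (by positivity) hlog hlog2
    _ = 2 * C / Real.log Q := by
        push_cast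
        field_simp

end Pool.Agent.Helper17.FP
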